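import Pool.Agent.Q237.LR.Stm3

/-!
# Project LR, job HOP: the action of the nearest neighbour hopping
-/

set_option autoImplicit false

namespace Pool.Agent.Q31.LR

open Pool.Agent.Q237.LR3

theorem hop : S_HOP := by
  intro d ψ y
  have h1 : ∀ a : Fin d → ℤ, HasSum (fun w => (if w = a then (1 : ℝ) else 0) * ψ w) (ψ a) := by
    intro a
    have h := hasSum_ite_eq a (ψ a)
    convert h using 1
    funext w
    by_cases hw : w = a
    · rw [if_pos hw, if_pos hw, one_mul, hw]
    · rw [if_neg hw, if_neg hw, zero_mul]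
  have h2 : HasSum (fun w => nn d y w * ψ w)
      (∑ i, (ψ (y + Pi.single i 1) + ψ (y - Pi.single i 1))) := by
    have h := hasSum_sum (s := (Finset.univ : Finset (Fin d)))
      (fun i _ => (h1 (y + Pi.single i 1)).add (h1 (y - Pi.single i 1)))
    convert h using 1
    funext w
    simp only [nn, Finset.sum_mul, add_mul]
  refine ⟨?_, h2.tsum_eq⟩
  refine Set.Finite.subset ((Set.finite_range fun i : Fin d => y + Pi.single i 1).union
    (Set.finite_range fun i : Fin d => y - Pi.single i 1)) ?_
  intro w hw
  by_contra hn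
  apply hw
  have h3 : nn d y w = 0 := by
    unfold nn
    refine Finset.sum_eq_zero fun i _ => ?_
    have ha : w ≠ y + Pi.single i 1 := fun h => hn (Or.inl ⟨i, h.symm⟩)
    have hb : w ≠ y - Pi.single i 1 := fun h => hn (Or.inr ⟨i, h.symm⟩)
    rw [if_neg ha, if_neg hb, add_zero]
  show nn d y w * ψ w = 0
  rw [h3, zero_mul]

end Pool.Agent.Q31.LR
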